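import Pool.Agent.Helper14.FO.Defs

set_option autoImplicit false

/-!
MP_190084_co, module GRM: a spectral certificate gives a lower bound for the Lovász number.
-/

namespace Pool.Agent.Helper14.FO

open Finset
open scoped MatrixOrder

theorem st_GRM : ST_GRM := by
  intro V _ _ _ X M hM hcert
  obtain ⟨A, hA0, hA1, hP, _⟩ := hcert
  obtain ⟨B, hB⟩ := CStarAlgebra.nonneg_iff_eq_star_mul_self.mp hP.nonneg
  have hZ : ∀ x y, ∑ i, B i x * B i y = A x y + M * (if x = y then 1 else 0) := by
    intro x y
    have h := congrFun (congrFun hB x) y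
    rw [Matrix.mul_apply] at h
    simp only [Matrix.add_apply, Matrix.smul_apply, Matrix.one_apply, smul_eq_mul,
      Matrix.star_apply, star_trivial] at h
    exact h.symm
  have hn : (0 : ℝ) < Fintype.card V := by exact_mod_cast Fintype.card_pos
  have hrow : ∀ x, ∑ i, B i x * (∑ y, B i y) = 1 + M := by
    intro x
    calc ∑ i, B i x * (∑ y, B i y) = ∑ i, ∑ y, B i x * B i y := by
          refine Finset.sum_congr rfl fun i _ => ?_
          rw [Finset.mul_sum]
      _ = ∑ y, ∑ i, B i x * B i y := Finset.sum_comm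
      _ = ∑ y, (A x y + M * (if x = y then 1 else 0)) := Finset.sum_congr rfl fun y _ => hZ x y
      _ = 1 + M := by
          rw [Finset.sum_add_distrib, hA1 x, ← Finset.mul_sum]
          simp
  have htot : ∑ i, (∑ y, B i y) ^ 2 = Fintype.card V * (1 + M) := by
    calc ∑ i, (∑ y, B i y) ^ 2 = ∑ i, ∑ x, B i x * (∑ y, B i y) := by
          refine Finset.sum_congr rfl fun i _ => ?_
          rw [sq, Finset.sum_mul]
      _ = ∑ x, ∑ i, B i x * (∑ y, B i y) := Finset.sum_comm
      _ = ∑ _x : V, (1 + M) := Finset.sum_congr rfl fun x _ => hrow x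
      _ = Fintype.card V * (1 + M) := by
          rw [Finset.sum_const, Finset.card_univ, nsmul_eq_mul]
  have hs : (0 : ℝ) < Fintype.card V * (1 + M) := by positivity
  have hsM : Real.sqrt M ^ 2 = M := Real.sq_sqrt hM.le
  have hsS : Real.sqrt (Fintype.card V * (1 + M)) ^ 2 = Fintype.card V * (1 + M) :=
    Real.sq_sqrt hs.le
  have e := Fintype.equivFin V
  refine ⟨Fintype.card V, fun x i => B (e.symm i) x / Real.sqrt M,
    fun i => (∑ y, B (e.symm i) y) / Real.sqrt (Fintype.card V * (1 + M)), ?_, ?_, ?_, ?_⟩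
  · intro x
    have h1 := Equiv.sum_comp e.symm (fun i => (B i x / Real.sqrt M) ^ 2)
    rw [h1]
    have h2 := hZ x x
    rw [hA0 x x (X.loopless.irrefl x)] at h2
    simp only [if_true, mul_one, zero_add] at h2
    calc ∑ i, (B i x / Real.sqrt M) ^ 2 = (∑ i, B i x * B i x) / M := by
          rw [Finset.sum_div]
          refine Finset.sum_congr rfl fun i _ => ?_
          rw [div_pow, hsM, sq]
      _ = 1 := by rw [h2]; exact div_self hM.ne'
  · have h1 := Equiv.sum_comp e.symm
      (fun i => ((∑ y, B i y) / Real.sqrt (Fintype.card V * (1 + M))) ^ 2)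
    rw [h1]
    calc ∑ i, ((∑ y, B i y) / Real.sqrt (Fintype.card V * (1 + M))) ^ 2
        = (∑ i, (∑ y, B i y) ^ 2) / (Fintype.card V * (1 + M)) := by
          rw [Finset.sum_div]
          refine Finset.sum_congr rfl fun i _ => ?_
          rw [div_pow, hsS]
      _ = 1 := by rw [htot]; exact div_self hs.ne'
  · intro x y hxy hadj
    have h1 := Equiv.sum_comp e.symm (fun i => B i x / Real.sqrt M * (B i y / Real.sqrt M))
    rw [h1]
    have h2 := hZ x y
    rw [hA0 x y hadj] at h2
    simp only [hxy, if_false, mul_zero, add_zero] at h2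
    calc ∑ i, B i x / Real.sqrt M * (B i y / Real.sqrt M) = (∑ i, B i x * B i y) / M := by
          rw [Finset.sum_div]
          refine Finset.sum_congr rfl fun i _ => ?_
          rw [div_mul_div_comm, ← sq (Real.sqrt M), hsM]
      _ = 0 := by rw [h2, zero_div]
  · intro x
    have h1 := Equiv.sum_comp e.symm
      (fun i => B i x / Real.sqrt M * ((∑ y, B i y) / Real.sqrt (Fintype.card V * (1 + M))))
    rw [h1]
    have h3 : ∑ i, B i x / Real.sqrt M * ((∑ y, B i y) / Real.sqrt (Fintype.card V * (1 + M))) =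
        (1 + M) / (Real.sqrt M * Real.sqrt (Fintype.card V * (1 + M))) := by
      rw [← hrow x, Finset.sum_div]
      refine Finset.sum_congr rfl fun i _ => ?_
      rw [div_mul_div_comm]
    rw [h3, div_pow, mul_pow, hsM, hsS]
    apply le_of_eq
    field_simp
    ring

end Pool.Agent.Helper14.FO
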